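import Pool.Agent.H93.RG.RingC
import Pool.Agent.H3.RG.World

/-!
# FG, MIX: every line has its own modulus: definitions
-/

set_option autoImplicit false
set_option linter.unusedSectionVars false

namespace Pool.Agent.H3.MX

open Finset Pool.Agent.H93.RG
open Pool.Agent.H3.RG (Mr)
open Pool.Agent.H67.FG (ind Alg Fo Resp inst)
open Pool.Agent.H3.Frg hiding ind

/-- Refutations in which each line has its own modulus: a line is a pair `(m, A)`, the MOD gates in `A` count modulo
`m`. Each line is a hypothesis, or an instance of a scheme with at most `k` symbols which is true for all truth values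
that respect the MOD gates modulo `m`, or it follows from two earlier lines by modus ponens, where each premise has
the modulus of the conclusion or no MOD gates; the last line is `¬ (A → A)`. -/
structure IsMix {V : Type} (k : ℕ) (Hyp : Set (Fo V)) (π : List (ℕ × Fo V)) : Prop where
  /-- lines -/
  line : ∀ (i : ℕ) (hi : i < π.length), (π[i]).2 ∈ Hyp ∨
    (∃ (ψ : Fm ℕ) (σ : ℕ → Fo V), ψ.len ≤ k ∧
      (∀ v : Fo V → Bool, Resp (π[i]).1 v → ψ.eval (fun n => v (σ n)) = true) ∧ (π[i]).2 = inst σ ψ) ∨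
    ∃ (j l : ℕ) (hj : j < i) (hl : l < i), (π[l]).2 = .imp (π[j]).2 (π[i]).2 ∧
      ((π[j]).1 = (π[i]).1 ∨ (π[j]).2.gates = ∅) ∧ ((π[l]).1 = (π[i]).1 ∨ (π[l]).2.gates = ∅)
  /-- the last line is a contradiction -/
  last : ∃ (h : π ≠ []) (A : Fo V), (π.getLast h).2 = .neg (.imp A A)

section

variable {r q : ℕ} [NeZero r]

/-- `y` is `τ` on `J` -/
def Pat (J : Finset (Ed q)) (τ y : Ed q → ZMod r) : Prop := ∀ e ∈ J, y e = τ e

/-- the flow `τ` on the edges of `J` contradicts the charges -/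
def BadT (c : ℕ) (J : Finset (Ed q)) (τ : Ed q → ZMod r) : Prop :=
  ∃ u : Fin q → ZMod r, 2 * (sp u).card < q ∧ (∀ e, e ∉ J → du u e = 0) ∧
    ∑ e, du u e * τ e ≠ ∑ a, u a * ch r c a

/-- the worlds for different primes: the same partial partitions, the same patterns in `Z` -/
structure WW (p K c : ℕ) [Fact p.Prime] [NeZero q] (𝓦 : MW r (ZMod p) (Ed q → ZMod r) (Pt r q c)) : Prop where
  /-- cost -/
  cost : 𝓦.c = q - 1
  /-- bound -/
  bd : 𝓦.K = K
  /-- the partial partitions -/
  part : 𝓦.M = Mr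
  /-- local functions -/
  jun : ∀ (S : Finset (Ed q)) (f : (Ed q → ZMod r) → ZMod p), (∀ y y', (∀ e ∈ S, y e = y' e) → f y = f y') →
    f ∈ 𝓦.Deg S.card
  /-- patterns -/
  pat : ∀ (J : Finset (Ed q)) (τ : Ed q → ZMod r), J.card ≤ K → (ind (Pat J τ) ∈ 𝓦.Z ↔ BadT c J τ)

end

end Pool.Agent.H3.MX
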