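import Pool.Agent.H67.MX.EvM

/-!
# FG, MIX (E): the evaluation in one world

The proof is in `H67/MX/EvM`.
-/

set_option autoImplicit false
set_option linter.unusedSectionVars false

namespace Pool.Agent.H3.MX

open Finset Pool.Agent.H93.RG
open Pool.Agent.H3.Frg hiding ind
open Pool.Agent.H3.Ac (ldep SubCl)
open Pool.Agent.H67.FG (ind Alg Fo tr orAll orF IsRef Few DegOK guess_exists self_mem_subs)
open Pool.Agent.H67.RG (Ev)

theorem ev_of {r m T k w N : ℕ} (hr : 2 ≤ r) (hw : 1 ≤ w) (hT : 1 ≤ T) {F Y V : Type} [Field F] [Fintype V]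
    [DecidableEq V] (𝓦 : MW r F Y V) (hcard : 100 * r ^ 2 * (w + 1) ^ 2 ≤ Fintype.card V)
    (hK : (k + 6) * (T * ((w + 1) * (r * w) * 𝓦.c)) ≤ 𝓦.K)
    (S : List (Fm (Finset (Fin N) ⊕ Bool))) (hS : SubCl {A | A ∈ S})
    (val : Fm (Finset (Fin N) ⊕ Bool) → Finset (Finset V) → Option Bool)
    (hval : ∀ A ∈ S, Val r w (2 * r * r * w) (val A)) (hcoh : Coh r val {A | A ∈ S})
    (hv1 : ∀ b M, val (.var (Sum.inr b)) M = some b)
    (hv2 : ∀ (a : Fin N) (B C : Finset (Fin N)), a ∈ B → a ∈ C → B ≠ C → ∀ M, IsM r M →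
        ¬ (val (.var (Sum.inl B)) M = some true ∧ val (.var (Sum.inl C)) M = some true))
    (hv3 : ∀ (a : Fin N) (l : List (Fm (Finset (Fin N) ⊕ Bool))) (B : Fm (Finset (Fin N) ⊕ Bool)), orF l B ∈ S →
        (∀ e : Finset (Fin N), e.card = r → a ∈ e → .var (Sum.inl e) ∈ B :: l) →
        ∀ M, IsM r M → val (orF l B) M ≠ some false)
    (L : Set (Fo (Finset (Fin N)))) (hSt : ∀ A ∈ L, ∀ B ∈ A.subs, ∀ G : Fo (Finset (Fin N)) → Bool, tr G B ∈ S)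
    (hdeg : ∀ A ∈ L, DegOK F m T A) :
    ∃ g : Y → Fo (Finset (Fin N)) → Bool, Ev m k 𝓦.toAlg (T * ((w + 1) * (r * w) * 𝓦.c))
      (fun y C => run r w (val C) (𝓦.M y) (w + 1) ∅) g (Count r N) L :=
  Pool.Agent.H67.MX.ev_of hr hw hT 𝓦 hcard hK S hS val hval hcoh hv1 hv2 hv3 L hSt hdeg

end Pool.Agent.H3.MX
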