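import Pool.Agent.H3.MX.Trf

/-!
# FG, MIX: the induction over the lines
-/

set_option autoImplicit false
set_option linter.unusedSectionVars false

namespace Pool.Agent.H3.MX

open Finset Pool.Agent.H93.RG
open Pool.Agent.H3.RG (Mr)
open Pool.Agent.H3.Frg hiding ind
open Pool.Agent.H67.FG (ind Alg Fo tr orAll orF self_mem_subs Resp inst)
open Pool.Agent.H67.RG (Ev df)

/-- the second components of the lines -/
def Lns {V : Type} (π : List (ℕ × Fo V)) : Set (Fo V) := {A | ∃ x ∈ π, x.2 = A}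

/-- no refutation with a modulus for each line -/
theorem mix_no_ref {r q K c k w D1 N : ℕ} [NeZero r] [NeZero q] (hr : 1 ≤ r) {Hyp : Set (Fo (Finset (Fin N)))}
    (π : List (ℕ × Fo (Finset (Fin N)))) (hπ : IsMix k Hyp π)
    (val : Fm (Finset (Fin N) ⊕ Bool) → Finset (Finset (Pt r q c)) → Option Bool)
    (hK : 3 * ((w + 1) * (r * w) * (q - 1)) ≤ K)
    (hfam : ∀ m : ℕ, m ∈ π.map Prod.fst → ∃ (p : ℕ) (_ : Fact p.Prime)
      (𝓦 : MW r (ZMod p) (Ed q → ZMod r) (Pt r q c)) (g : (Ed q → ZMod r) → Fo (Finset (Fin N)) → Bool),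
      WW p K c 𝓦 ∧ Ev m k 𝓦.toAlg D1 (fun y C => run r w (val C) (Mr y) (w + 1) ∅) g Hyp (Lns π)) : False := by
  choose p hp 𝓦 g hWW hE using hfam
  have hmem : ∀ (i : ℕ) (hi : i < π.length), (π[i]).1 ∈ π.map Prod.fst := fun i hi =>
    List.mem_map.2 ⟨_, List.getElem_mem hi, rfl⟩
  have hL : ∀ (i : ℕ) (hi : i < π.length), (π[i]).2 ∈ Lns π := fun i hi => ⟨_, List.getElem_mem hi, rfl⟩
  have move : ∀ (m : ℕ) (hm : m ∈ π.map Prod.fst) (m' : ℕ) (hm' : m' ∈ π.map Prod.fst) (B : Fo (Finset (Fin N))),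
      B ∈ Lns π → (m = m' ∨ B.gates = ∅) → df (g m hm) B ∈ (𝓦 m hm).Z → df (g m' hm') B ∈ (𝓦 m' hm').Z := by
    intro m hm m' hm' B hB hor hz
    rcases hor with rfl | hfree
    · exact hz
    · have := hp m hm
      have := hp m' hm'
      exact df_move hr (hWW m hm) (hWW m' hm') val hK (hE m hm) (hE m' hm') hB hfree hz
  have main : ∀ (i : ℕ) (hi : i < π.length), df (g (π[i]).1 (hmem i hi)) (π[i]).2 ∈ (𝓦 (π[i]).1 (hmem i hi)).Z := by
    intro i
    induction i using Nat.strong_induction_on with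
    | _ i ih =>
      intro hi
      have E := hE (π[i]).1 (hmem i hi)
      have hAL := hL i hi
      rcases hπ.line i hi with h | ⟨ψ, σ, h1, h2, h3⟩ | ⟨j, l, hj, hl, h, hjm, hlm⟩
      · exact hyp_step E hAL h
      · have h4 : inst σ ψ ∈ Lns π := h3 ▸ hAL
        have h5 := ax_step E ψ σ h1 h2 h4
        rw [← h3] at h5
        exact h5
      · have hjZ := move _ (hmem j (hj.trans hi)) _ (hmem i hi) _ (hL j (hj.trans hi)) hjm (ih j hj (hj.trans hi))
        have hlZ := move _ (hmem l (hl.trans hi)) _ (hmem i hi) _ (hL l (hl.trans hi)) hlm (ih l hl (hl.trans hi))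
        have hlL := hL l (hl.trans hi)
        rw [h] at hlZ hlL
        exact mp_step E (hL j (hj.trans hi)) hAL hlL hjZ hlZ
  obtain ⟨hne, A, hA⟩ := hπ.last
  have hlen : π.length - 1 < π.length := by
    have := List.length_pos_iff.2 hne
    omega
  have h1 := main _ hlen
  have h2 : (π[π.length - 1]).2 = .neg (.imp A A) := by
    rw [← hA, List.getLast_eq_getElem]
  have h3 := hL _ hlen
  rw [h2] at h1 h3
  exact last_step (hE _ (hmem _ hlen)) h3 h1

end Pool.Agent.H3.MX
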