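import Pool.Agent.H3.MX.Wld
import Pool.Agent.H3.MX.Ind
import Pool.Agent.H3.MX.EvM
import Pool.Agent.H67.RG.FinR

/-!
# FG, MIX: the theorem
-/

set_option autoImplicit false
set_option linter.unusedSectionVars false

namespace Pool.Agent.H3.MX

open Finset Pool.Agent.H93.RG
open Pool.Agent.H3.RG (Mr)
open Pool.Agent.H67.FG (ind Alg Fo Few DegOK)
open Pool.Agent.H67.RG (Ev)

theorem degOK_mono {V F : Type} [Field F] {m T T' : ℕ} (hT : T ≤ T') {A : Fo V} (h : DegOK F m T A) :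
    DegOK F m T' A := by
  intro Y 𝓐 r g h1 h2 D0 h3 h4 hK B hB
  have hle : T * D0 ≤ T' * D0 := Nat.mul_le_mul_right _ hT
  obtain ⟨a, b, c⟩ := h Y 𝓐 r g h1 h2 D0 h3 h4 (hle.trans hK) B hB
  exact ⟨𝓐.mono hle a, 𝓐.mono hle b, c⟩

/-- the lower bound with parameters -/
theorem mix_lower {r T d k t w q N : ℕ} (hr : 2 ≤ r) (hT : 1 ≤ T) (hd : 1 ≤ d) (hw : 1 ≤ w)
    (hq : 1000 * r * (k + 3) * (T * (w + 1) ^ 2) ≤ q) (hq1 : q % r = 1)
    (hNL : lev r w (q * (q - 1) * (r - 1) + N % r) d ≤ N) (π : List (ℕ × Fo (Finset (Fin N))))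
    (hπ : IsMix k (Count r N) π) (hline : ∀ x ∈ π, ∀ B ∈ x.2.subs, B.dep ≤ d ∧ B.outer.ncard ≤ t)
    (hmod : ∀ x ∈ π, ∃ (p : ℕ) (_ : Fact p.Prime), ¬ p ∣ r ∧ ∀ z ∈ π, DegOK (ZMod p) x.1 T z.2) :
    2 ^ w < 2 ^ t * {B | ∃ x ∈ π, B ∈ x.2.subs}.ncard + 2 := by
  by_contra hcon
  push Not at hcon
  have hset : H93.FG2.allSubs (π.map Prod.snd) = {B | ∃ x ∈ π, B ∈ x.2.subs} := by
    ext B
    constructor
    · rintro ⟨A, hA, hB⟩
      obtain ⟨x, hx, rfl⟩ := List.mem_map.1 hA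
      exact ⟨x, hx, hB⟩
    · rintro ⟨x, hx, hB⟩
      exact ⟨x.2, List.mem_map.2 ⟨x, hx, rfl⟩, hB⟩
  obtain ⟨S, hS, hSt, hSc, hSd, hSl⟩ := H93.FG2.sub_list_card (π.map Prod.snd) t d (by
    intro A hA
    obtain ⟨x, hx, rfl⟩ := List.mem_map.1 hA
    exact hline x hx)
  rw [hset] at hSl
  -- numbers
  have hr1 : 1 ≤ r := by omega
  set X := T * (w + 1) ^ 2 with hXdef
  have hX : 1 ≤ X := Nat.one_le_iff_ne_zero.2 (by positivity)
  have hX1 : (w + 1) ^ 2 ≤ X := Nat.le_mul_of_pos_left _ hT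
  have hq4 : 3000 * (r * X) ≤ q := by
    refine le_trans ?_ hq
    have : 3 * (r * X) ≤ (k + 3) * (r * X) := Nat.mul_le_mul_right _ (by omega)
    calc 3000 * (r * X) = 1000 * (3 * (r * X)) := by ring
      _ ≤ 1000 * ((k + 3) * (r * X)) := Nat.mul_le_mul_left _ this
      _ = 1000 * r * (k + 3) * X := by ring
  have hrX : r ≤ r * X := Nat.le_mul_of_pos_right _ hX
  have hq3 : 4000 ≤ q := by omega
  set K := q ^ 2 / 10 with hKdef
  have hK10 : 10 * K ≤ q ^ 2 := Nat.mul_div_le _ _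
  have hK11 : q ^ 2 < 10 * K + 10 := by
    have := Nat.lt_mul_div_succ (q ^ 2) (show 0 < 10 by norm_num)
    omega
  have hq2 : 4000 * q ≤ q ^ 2 := by nlinarith
  have i1 : NeZero r := ⟨by omega⟩
  have i2 : NeZero q := ⟨by omega⟩
  have hcard := card_Pt r q (N % r)
  have hdvd : r ∣ q - 1 := by
    have h1 := Nat.div_add_mod q r
    rw [hq1] at h1
    exact ⟨q / r, by omega⟩
  have hmodN : N % r = Fintype.card (Pt r q (N % r)) % r := by
    rw [hcard]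
    obtain ⟨z, hz⟩ := hdvd
    rw [hz, show q * (r * z) * (r - 1) = r * (q * z * (r - 1)) by ring, Nat.mul_add_mod, Nat.mod_mod]
  have hcard2 : 100 * r ^ 2 * (w + 1) ^ 2 ≤ Fintype.card (Pt r q (N % r)) := by
    rw [hcard]
    have h1 : r * (w + 1) ^ 2 ≤ r * X := Nat.mul_le_mul_left _ hX1
    have h2 : 100 * r ^ 2 * (w + 1) ^ 2 ≤ q * r := by
      calc 100 * r ^ 2 * (w + 1) ^ 2 = 100 * (r * (w + 1) ^ 2) * r := by ring
        _ ≤ q * r := Nat.mul_le_mul_right _ (by omega)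
    have h3 : q * r ≤ q * (q - 1) * (r - 1) := by
      have h4 : r ≤ q - 1 := by omega
      calc q * r ≤ q * (q - 1) := Nat.mul_le_mul_left _ h4
        _ ≤ q * (q - 1) * (r - 1) := Nat.le_mul_of_pos_right _ (by omega)
    omega
  obtain ⟨val, hval, hcoh, hv1, hv2, hv3⟩ := tower hr hd hw hcard2 hmodN (by rw [hcard]; exact hNL) S hS hSd
    (hSl.trans hcon)
  set D0 := (w + 1) * (r * w) * (q - 1) with hD0
  set D1 := T * D0 with hD1
  have hD0le : D0 ≤ r * (w + 1) ^ 2 * q := by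
    rw [hD0]
    calc (w + 1) * (r * w) * (q - 1) ≤ (w + 1) * (r * (w + 1)) * q := by
          apply Nat.mul_le_mul
          · apply Nat.mul_le_mul_left
            exact Nat.mul_le_mul_left _ (by omega)
          · omega
      _ = r * (w + 1) ^ 2 * q := by ring
  have hD1le : D1 ≤ r * X * q := by
    calc D1 = T * D0 := hD1
      _ ≤ T * (r * (w + 1) ^ 2 * q) := Nat.mul_le_mul_left _ hD0le
      _ = r * X * q := by rw [hXdef]; ring
  have hKD : (k + 6) * D1 ≤ K := by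
    have h1 : (k + 6) * D1 ≤ (2 * (k + 3)) * (r * X * q) :=
      Nat.mul_le_mul (by omega) hD1le
    have h3 : 500 * ((2 * (k + 3)) * (r * X * q)) ≤ q ^ 2 := by
      calc 500 * ((2 * (k + 3)) * (r * X * q))
          = (1000 * r * (k + 3) * X) * q := by ring
        _ ≤ q * q := Nat.mul_le_mul_right _ hq
        _ = q ^ 2 := by ring
    omega
  have hD01 : D0 ≤ D1 := Nat.le_mul_of_pos_left _ hT
  have hK3 : 3 * D0 ≤ K := by
    have : 3 * D1 ≤ (k + 6) * D1 := Nat.mul_le_mul_right _ (by omega)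
    omega
  refine mix_no_ref (c := N % r) (q := q) (K := K) (D1 := D1) hr1 π hπ val hK3 ?_
  intro m' hm'
  obtain ⟨x, hx, rfl⟩ := List.mem_map.1 hm'
  obtain ⟨p, hp, hpr, hdeg⟩ := hmod x hx
  obtain ⟨𝓦, hW⟩ := world_mx p hr hpr K (N % r) (q := q) (by omega) hq1 (by omega) (by omega)
  obtain ⟨g, hg⟩ := ev_of (m := x.1) (k := k) (T := T) (w := w) hr hw hT 𝓦 hcard2
    (by rw [hW.cost, hW.bd]; exact hKD) S hS val hval hcoh hv1 hv2 hv3 (Lns π)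
    (by
      rintro A ⟨z, hz, rfl⟩ B hB G
      exact hSt z.2 (List.mem_map.2 ⟨z, hz, rfl⟩) B hB G)
    (by
      rintro A ⟨z, hz, rfl⟩
      exact hdeg z hz)
  rw [hW.cost] at hg
  simp only [hW.part] at hg
  exact ⟨p, hp, 𝓦, g, hW, hg⟩

theorem mix_gates {r d k l m t N : ℕ} (hr : 2 ≤ r) (hd : 1 ≤ d) (hm : 2 ≤ m) (ht : 1 ≤ t)
    (hN : ((k + 3) * (r * m * t) ^ (l + 11)) ^ (2 * r ^ (2 * d)) ≤ N)
    (π : List (ℕ × Fo (Finset (Fin N)))) (hπ : IsMix k (Count r N) π)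
    (hmod : ∀ x ∈ π, x.1 ≤ m ∧ ∃ p e : ℕ, p.Prime ∧ ¬ p ∣ r ∧ 1 ≤ e ∧ x.1 = p ^ e)
    (hline : ∀ x ∈ π, (∀ B ∈ x.2.subs, B.dep ≤ d) ∧ Few t l x.2) :
    2 ^ t ≤ {B | ∃ x ∈ π, B ∈ x.2.subs}.ncard := by
  set Q := 1000 * r * (k + 3) * ((t * m) ^ l * (2 * t + 2) ^ 2) with hQ
  have hlev := H81.RG.num_explicit (d := d) (k := k) (l := l) (c := N % r) (q := r * Q + 1) hr hm ht (Nat.mod_lt _ (by omega))
    (by rw [hQ])
  have h := mix_lower hr (T := (t * m) ^ l) (d := d) (k := k) (t := t) (w := 2 * t + 1)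
    (q := r * Q + 1) (Nat.one_le_iff_ne_zero.2 (pow_ne_zero _ (by positivity))) hd (by omega)
    (by
      have : Q ≤ r * Q := Nat.le_mul_of_pos_left _ (by omega)
      have h2 : 1000 * r * (k + 3) * ((t * m) ^ l * (2 * t + 1 + 1) ^ 2) = Q := by rw [hQ]
      omega)
    (by rw [Nat.mul_add_mod]; exact Nat.mod_eq_of_lt (by omega))
    (hlev.trans hN) π hπ
    (fun x hx B hB => ⟨(hline x hx).1 B hB, H93.FG2.few_outer (hline x hx).2 B hB⟩)
    (by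
      intro x hx
      obtain ⟨hxm, p, e, hp, hpr, he, hxe⟩ := hmod x hx
      have hF : Fact p.Prime := ⟨hp⟩
      refine ⟨p, hF, hpr, fun z hz => ?_⟩
      have hpe : 2 ≤ p ^ e := by
        calc 2 ≤ p := hp.two_le
          _ = p ^ 1 := (pow_one p).symm
          _ ≤ p ^ e := Nat.pow_le_pow_right hp.pos he
      rw [hxe] at hxm ⊢
      exact degOK_mono (Nat.pow_le_pow_left (Nat.mul_le_mul_left _ hxm) _) (H93.FG2.few_deg ht hpe (hline z hz).2))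
  by_contra hcon
  push Not at hcon
  have h1 : 2 ^ (2 * t + 1) = 2 ^ t * 2 ^ t * 2 := by
    rw [pow_succ, two_mul, pow_add]
  have h2 : 2 ≤ 2 ^ t := by
    calc 2 = 2 ^ 1 := rfl
      _ ≤ 2 ^ t := Nat.pow_le_pow_right (by norm_num) ht
  have h3 : 2 ^ t * {B | ∃ x ∈ π, B ∈ x.2.subs}.ncard + 2 ^ t ≤ 2 ^ t * 2 ^ t := by
    calc 2 ^ t * {B | ∃ x ∈ π, B ∈ x.2.subs}.ncard + 2 ^ t = 2 ^ t * ({B | ∃ x ∈ π, B ∈ x.2.subs}.ncard + 1) := by ring
      _ ≤ 2 ^ t * 2 ^ t := Nat.mul_le_mul_left _ hcon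
  omega

end Pool.Agent.H3.MX
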