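import Pool.Agent.H3.MX.Defs
import Pool.Agent.H87.MX.Lin

/-!
# FG, MIX (L): all lines
-/

set_option autoImplicit false
set_option linter.unusedSectionVars false

namespace Pool.Agent.H3.MX

open Finset
open Pool.Agent.H3.Frg hiding ind
open Pool.Agent.H67.FG (ind Alg Fo tr orAll orF IsRef Few DegOK guess_exists self_mem_subs)
open Pool.Agent.H67.RG (Ev df)

/-- a formula without gates does not see the guesses -/
theorem tr_free {V : Type} (g g' : Fo V → Bool) (A : Fo V) (h : A.gates = ∅) : tr g A = tr g' A :=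
  Pool.Agent.H87.MX.tr_free g g' A h

/-- one step of modus ponens -/
theorem mp_step {p k : ℕ} {V Y F : Type} [Field F] {𝓐 : Alg F Y} {D1 : ℕ} {r : Y → Fm (V ⊕ Bool) → Option Bool}
    {g : Y → Fo V → Bool} {Hyp L : Set (Fo V)} (E : Ev p k 𝓐 D1 r g Hyp L) {A B : Fo V} (hA : A ∈ L) (hB : B ∈ L)
    (hAB : Fo.imp A B ∈ L) (h1 : df g A ∈ 𝓐.Z) (h2 : df g (Fo.imp A B) ∈ 𝓐.Z) : df g B ∈ 𝓐.Z :=
  Pool.Agent.H87.MX.mp_step E hA hB hAB h1 h2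

/-- hypotheses -/
theorem hyp_step {p k : ℕ} {V Y F : Type} [Field F] {𝓐 : Alg F Y} {D1 : ℕ} {r : Y → Fm (V ⊕ Bool) → Option Bool}
    {g : Y → Fo V → Bool} {Hyp L : Set (Fo V)} (E : Ev p k 𝓐 D1 r g Hyp L) {A : Fo V} (hA : A ∈ L) (hH : A ∈ Hyp) :
    df g A ∈ 𝓐.Z :=
  Pool.Agent.H87.MX.hyp_step E hA hH

/-- schemes -/
theorem ax_step {p k : ℕ} {V Y F : Type} [Field F] {𝓐 : Alg F Y} {D1 : ℕ} {r : Y → Fm (V ⊕ Bool) → Option Bool}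
    {g : Y → Fo V → Bool} {Hyp L : Set (Fo V)} (E : Ev p k 𝓐 D1 r g Hyp L) (ψ : Fm ℕ) (σ : ℕ → Fo V)
    (h1 : ψ.len ≤ k) (h2 : ∀ v : Fo V → Bool, Pool.Agent.H67.FG.Resp p v → ψ.eval (fun n => v (σ n)) = true)
    (hA : Pool.Agent.H67.FG.inst σ ψ ∈ L) : df g (Pool.Agent.H67.FG.inst σ ψ) ∈ 𝓐.Z :=
  Pool.Agent.H87.MX.ax_step E ψ σ h1 h2 hA

/-- the last line -/
theorem last_step {p k : ℕ} {V Y F : Type} [Field F] {𝓐 : Alg F Y} {D1 : ℕ} {r : Y → Fm (V ⊕ Bool) → Option Bool}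
    {g : Y → Fo V → Bool} {Hyp L : Set (Fo V)} (E : Ev p k 𝓐 D1 r g Hyp L) {A : Fo V}
    (hA : Fo.neg (.imp A A) ∈ L) (h : df g (Fo.neg (.imp A A)) ∈ 𝓐.Z) : False :=
  Pool.Agent.H87.MX.last_step E hA h

end Pool.Agent.H3.MX
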