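import Pool.Agent.H3.MX.Defs
import Pool.Agent.H93.RG.Pro

/-!
# FG, MIX (R): the values of the process move from one prime to another
-/

set_option autoImplicit false
set_option linter.unusedSectionVars false

namespace Pool.Agent.H3.MX

open Finset Pool.Agent.H93.RG
open Pool.Agent.H3.RG (Mr EA tch_congr cov_tch card_EA)
open Pool.Agent.H67.FG (ind Alg)

section

variable {r q : ℕ} [NeZero r]

theorem ind_1 {Y k : Type} [Field k] {P : Y → Prop} {y : Y} (h : P y) : (ind P : Y → k) y = 1 := by
  simp [ind, h]

theorem ind_0 {Y k : Type} [Field k] {P : Y → Prop} {y : Y} (h : ¬ P y) : (ind P : Y → k) y = 0 := by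
  simp [ind, h]

open scoped Classical in
/-- the patterns on `J` -/
noncomputable def pats (J : Finset (Ed q)) : Finset (Ed q → ZMod r) :=
  univ.filter fun σ => ∀ e, e ∉ J → σ e = 0

/-- splitting over the patterns on `J` -/
theorem split {k : Type} [Field k] (J : Finset (Ed q)) (h : (Ed q → ZMod r) → k) :
    h = ∑ σ ∈ pats J, ind (Pat J σ) * h := by
  classical
  funext y
  rw [Finset.sum_apply]
  set σ : Ed q → ZMod r := fun e => if e ∈ J then y e else 0 with hσ
  have hmem : σ ∈ pats J := by
    unfold pats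
    rw [mem_filter]
    exact ⟨mem_univ _, fun e he => by rw [hσ]; exact if_neg he⟩
  rw [Finset.sum_eq_single σ]
  · have h1 : Pat J σ y := fun e he => by rw [hσ]; exact (if_pos he).symm
    rw [Pi.mul_apply, ind_1 h1, one_mul]
  · intro σ' hσ' hne
    rw [Pi.mul_apply, ind_0, zero_mul]
    intro h1
    apply hne
    funext e
    unfold pats at hσ'
    rw [mem_filter] at hσ'
    rw [hσ]
    by_cases he : e ∈ J
    · show σ' e = if e ∈ J then y e else 0
      rw [if_pos he]
      exact (h1 e he).symm
    · show σ' e = if e ∈ J then y e else 0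
      rw [if_neg he]
      exact hσ'.2 e he
  · intro h1
    exact absurd hmem h1

variable {p K c : ℕ} [Fact p.Prime] [NeZero q] {𝓦 : MW r (ZMod p) (Ed q → ZMod r) (Pt r q c)}

theorem WW.pat_deg (h : WW p K c 𝓦) (J : Finset (Ed q)) (τ : Ed q → ZMod r) : ind (Pat J τ) ∈ 𝓦.Deg J.card := by
  refine h.jun J _ fun y y' hy => ?_
  by_cases h1 : Pat J τ y
  · rw [ind_1 h1, ind_1 (fun e he => by rw [← hy e he]; exact h1 e he)]
  · rw [ind_0 h1, ind_0 (fun h2 => h1 fun e he => by rw [hy e he]; exact h2 e he)]

theorem run_succ {V : Type} [Fintype V] [DecidableEq V] (r w : ℕ) (f : Finset (Finset V) → Option Bool)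
    (M : Finset (Finset V)) (n : ℕ) (π : Finset (Finset V)) (h1 : ¬ (dec r w f π).isSome) :
    (cov (wtn r w f π) ⊆ cov M → run r w f M (n + 1) π = run r w f M n (π ∪ tch (cov (wtn r w f π)) M)) ∧
      (¬ cov (wtn r w f π) ⊆ cov M → run r w f M (n + 1) π = none) := by
  constructor
  · intro h2
    rw [run, if_neg h1, if_pos h2]
  · intro h2
    rw [run, if_neg h1, if_neg h2]

theorem run_dec {V : Type} [Fintype V] [DecidableEq V] (r w : ℕ) (f : Finset (Finset V) → Option Bool)
    (M : Finset (Finset V)) (n : ℕ) (π : Finset (Finset V)) (h1 : (dec r w f π).isSome) :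
    run r w f M n π = dec r w f π := by
  cases n with
  | zero => rfl
  | succ n => rw [run, if_pos h1]

theorem run_move_aux {p' : ℕ} [Fact p'.Prime] {𝓦' : MW r (ZMod p') (Ed q → ZMod r) (Pt r q c)}
    (hr : 1 ≤ r) (h : WW p K c 𝓦) (h' : WW p' K c 𝓦') (w : ℕ) (f : Finset (Finset (Pt r q c)) → Option Bool)
    (D : ℕ) (hD : 3 * D ≤ K) (b : Option Bool) (n : ℕ) :
    ∀ (π : Finset (Finset (Pt r q c))) (J : Finset (Ed q)) (τ : Ed q → ZMod r),
      J.card + n * (r * w * (q - 1)) ≤ D →
      ind (Pat J τ) * ind (fun y => run r w f (Mr y) n π = b) ∈ 𝓦.Z →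
      ind (Pat J τ) * ind (fun y => run r w f (Mr y) n π = b) ∈ 𝓦'.Z := by
  -- a constant value
  have hconst : ∀ (J : Finset (Ed q)) (τ : Ed q → ZMod r) (Q : (Ed q → ZMod r) → Prop) (P : Prop), J.card ≤ K →
      (∀ y, Pat J τ y → (Q y ↔ P)) → (ind (Pat J τ) * ind Q : (Ed q → ZMod r) → ZMod p) ∈ 𝓦.Z →
      (ind (Pat J τ) * ind Q : (Ed q → ZMod r) → ZMod p') ∈ 𝓦'.Z := by
    intro J τ Q P hJ hQ hz
    by_cases hP : P
    · have e1 : (ind (Pat J τ) * ind Q : (Ed q → ZMod r) → ZMod p) = ind (Pat J τ) := by
        funext y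
        rw [Pi.mul_apply]
        by_cases hy : Pat J τ y
        · rw [ind_1 ((hQ y hy).2 hP), mul_one]
        · rw [ind_0 hy, zero_mul]
      have e2 : (ind (Pat J τ) * ind Q : (Ed q → ZMod r) → ZMod p') = ind (Pat J τ) := by
        funext y
        rw [Pi.mul_apply]
        by_cases hy : Pat J τ y
        · rw [ind_1 ((hQ y hy).2 hP), mul_one]
        · rw [ind_0 hy, zero_mul]
      rw [e1] at hz
      rw [e2]
      exact (h'.pat J τ hJ).2 ((h.pat J τ hJ).1 hz)
    · have e2 : (ind (Pat J τ) * ind Q : (Ed q → ZMod r) → ZMod p') = 0 := by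
        funext y
        rw [Pi.mul_apply]
        by_cases hy : Pat J τ y
        · rw [ind_0 (fun h1 => hP ((hQ y hy).1 h1)), mul_zero]
          rfl
        · rw [ind_0 hy, zero_mul]
          rfl
      rw [e2]
      exact Submodule.zero_mem _
  induction n with
  | zero =>
    intro π J τ hJ hz
    exact hconst J τ _ (dec r w f π = b) (by omega) (fun y _ => Iff.rfl) hz
  | succ n ih =>
    intro π J τ hJ hz
    by_cases hd : (dec r w f π).isSome
    · refine hconst J τ _ (dec r w f π = b) (by omega) (fun y _ => ?_) hz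
      rw [run_dec r w f _ (n + 1) π hd]
    · set A := cov (wtn r w f π) with hA
      set J1 := J ∪ EA A with hJ1
      have hAc : A.card ≤ r * w := H63.RG.card_cov_wtn r w f π
      have hEc : (EA A).card ≤ r * w * (q - 1) := (card_EA A).trans (Nat.mul_le_mul_right _ hAc)
      have hJ1c : J1.card ≤ J.card + r * w * (q - 1) := (card_union_le _ _).trans (by omega)
      have hn : (n + 1) * (r * w * (q - 1)) = n * (r * w * (q - 1)) + r * w * (q - 1) := by ring
      have hb1 : J1.card + n * (r * w * (q - 1)) ≤ D := by omega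
      rw [split J1 (ind (Pat J τ) * ind (fun y => run r w f (Mr y) (n + 1) π = b))]
      refine Submodule.sum_mem _ fun σ hσ => ?_
      -- the term in the first world
      have hterm : (ind (Pat J1 σ) * (ind (Pat J τ) * ind (fun y => run r w f (Mr y) (n + 1) π = b)) :
          (Ed q → ZMod r) → ZMod p) ∈ 𝓦.Z := by
        have d1 := h.pat_deg J τ
        have d2 : ind (fun y => run r w f (Mr y) (n + 1) π = b) ∈ 𝓦.Deg ((n + 1) * (r * w) * 𝓦.c) := by
          have := run_deg hr 𝓦 w f (n + 1) π b
          rwa [h.part] at this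
        rw [h.cost] at d2
        refine 𝓦.zmul ?_ (h.pat_deg J1 σ) (𝓦.mul d1 d2) hz
        rw [h.bd]
        have : (n + 1) * (r * w) * (q - 1) = (n + 1) * (r * w * (q - 1)) := by ring
        rw [this]
        omega
      by_cases hc : ∀ e ∈ J, σ e = τ e
      · -- compatible
        have hJJ : ∀ y, Pat J1 σ y → Pat J τ y := fun y hy e he => by
          rw [hy e (mem_union_left _ he), hc e he]
        have htch : ∀ y, Pat J1 σ y → tch A (Mr y) = tch A (Mr σ) := fun y hy =>
          tch_congr fun e he => hy e (mem_union_right _ he)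
        have hcov : ∀ y, Pat J1 σ y → (A ⊆ cov (Mr y) ↔ A ⊆ cov (Mr σ)) := fun y hy => by
          rw [cov_tch, cov_tch (M := Mr σ), htch y hy]
        by_cases hAσ : A ⊆ cov (Mr σ)
        · have key : ∀ (F : Type) [Field F],
              (ind (Pat J1 σ) * (ind (Pat J τ) * ind (fun y => run r w f (Mr y) (n + 1) π = b)) :
                (Ed q → ZMod r) → F) =
              ind (Pat J1 σ) * ind (fun y => run r w f (Mr y) n (π ∪ tch A (Mr σ)) = b) := by
            intro F _
            funext y
            simp only [Pi.mul_apply]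
            by_cases hy : Pat J1 σ y
            · have e1 : run r w f (Mr y) (n + 1) π = run r w f (Mr y) n (π ∪ tch A (Mr σ)) := by
                rw [(run_succ r w f (Mr y) n π hd).1 ((hcov y hy).2 hAσ), ← hA, htch y hy]
              rw [ind_1 (hJJ y hy), one_mul]
              have e2 : (ind (fun y => run r w f (Mr y) (n + 1) π = b) : (Ed q → ZMod r) → F) y =
                  (ind (fun y => run r w f (Mr y) n (π ∪ tch A (Mr σ)) = b) : (Ed q → ZMod r) → F) y := by
                by_cases hb : run r w f (Mr y) n (π ∪ tch A (Mr σ)) = b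
                · rw [ind_1 (P := fun y => run r w f (Mr y) (n + 1) π = b) (e1.trans hb),
                    ind_1 (P := fun y => run r w f (Mr y) n (π ∪ tch A (Mr σ)) = b) hb]
                · rw [ind_0 (P := fun y => run r w f (Mr y) (n + 1) π = b) (fun h2 => hb (e1.symm.trans h2)),
                    ind_0 (P := fun y => run r w f (Mr y) n (π ∪ tch A (Mr σ)) = b) hb]
              rw [e2]
            · rw [ind_0 hy, zero_mul, zero_mul]
          rw [key] at hterm
          rw [key]
          exact ih _ J1 σ hb1 hterm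
        · have key : ∀ (F : Type) [Field F],
              (ind (Pat J1 σ) * (ind (Pat J τ) * ind (fun y => run r w f (Mr y) (n + 1) π = b)) :
                (Ed q → ZMod r) → F) =
              ind (Pat J1 σ) * ind (fun y => run r w f (Mr y) (n + 1) π = b) := by
            intro F _
            funext y
            simp only [Pi.mul_apply]
            by_cases hy : Pat J1 σ y
            · rw [ind_1 (hJJ y hy), one_mul]
            · rw [ind_0 hy, zero_mul, zero_mul]
          rw [key] at hterm
          rw [key]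
          refine hconst J1 σ _ (none = b) (by omega) (fun y hy => ?_) hterm
          rw [(run_succ r w f (Mr y) n π hd).2 (fun h1 => hAσ ((hcov y hy).1 h1))]
      · -- incompatible
        have e0 : (ind (Pat J1 σ) * (ind (Pat J τ) * ind (fun y => run r w f (Mr y) (n + 1) π = b)) :
            (Ed q → ZMod r) → ZMod p') = 0 := by
          funext y
          simp only [Pi.mul_apply]
          by_cases hy : Pat J1 σ y
          · have : ¬ Pat J τ y := fun h1 => hc fun e he => by
              rw [← hy e (mem_union_left _ he), h1 e he]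
            rw [ind_0 this, zero_mul, mul_zero]
            rfl
          · rw [ind_0 hy, zero_mul]
            rfl
        rw [e0]
        exact Submodule.zero_mem _

end

theorem run_move {p p' r q K c : ℕ} [Fact p.Prime] [Fact p'.Prime] [NeZero r] [NeZero q] (hr : 1 ≤ r)
    {𝓦 : MW r (ZMod p) (Ed q → ZMod r) (Pt r q c)} {𝓦' : MW r (ZMod p') (Ed q → ZMod r) (Pt r q c)}
    (h : WW p K c 𝓦) (h' : WW p' K c 𝓦') (w n : ℕ) (f : Finset (Finset (Pt r q c)) → Option Bool)
    (hK : 3 * (n * (r * w) * (q - 1)) ≤ K) (b : Option Bool)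
    (hz : ind (fun y => run r w f (Mr y) n ∅ = b) ∈ 𝓦.Z) : ind (fun y => run r w f (Mr y) n ∅ = b) ∈ 𝓦'.Z := by
  have key : ∀ (F : Type) [Field F], (ind (fun y => run r w f (Mr y) n ∅ = b) : (Ed q → ZMod r) → F) =
      ind (Pat ∅ 0) * ind (fun y => run r w f (Mr y) n ∅ = b) := by
    intro F _
    funext y
    have h1 : Pat (∅ : Finset (Ed q)) (0 : Ed q → ZMod r) y := fun e he => absurd he (by simp)
    rw [Pi.mul_apply, ind_1 h1, one_mul]
  rw [key] at hz
  rw [key]
  refine run_move_aux hr h h' w f (n * (r * w) * (q - 1)) hK b n ∅ ∅ 0 ?_ hz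
  rw [card_empty]
  have : n * (r * w) * (q - 1) = n * (r * w * (q - 1)) := by ring
  omega

end Pool.Agent.H3.MX
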