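import Pool.Agent.H3.MX.Defs

/-!
# FG, MIX (T): the patterns in the Tseitin ideal

The indicator of a pattern on few edges is in the ideal iff the pattern contradicts the charges, a condition in which
the prime does not occur: otherwise a linear functional which vanishes on the ideal has the value `r ^ a * |U|` at the
indicator, `U` a subgroup of `(ZMod r) ^ q`.
-/

set_option autoImplicit false
set_option linter.unusedSectionVars false

namespace Pool.Agent.H3.MX

open Finset Pool.Agent.H93.RG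
open Pool.Agent.H67.FG (ind Alg)

section Sup

variable {E : Type} [Fintype E] [DecidableEq E] {F : Type} [Field F] {r : ℕ} [NeZero r]

/-- the span of the characters which vanish outside `S` -/
def DS (ψ : AddChar (ZMod r) F) (S : Finset E) : Submodule F ((E → ZMod r) → F) :=
  Submodule.span F {f | ∃ s : E → ZMod r, (∀ e, e ∉ S → s e = 0) ∧ f = chi ψ s}

variable {ψ : AddChar (ZMod r) F}

theorem ds_mul {S : Finset E} {f g : (E → ZMod r) → F} (hf : f ∈ DS ψ S) (hg : g ∈ DS ψ S) : f * g ∈ DS ψ S := by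
  have h1 : f * g ∈ DS ψ S * DS ψ S := Submodule.mul_mem_mul hf hg
  unfold DS at h1
  rw [Submodule.span_mul_span] at h1
  revert h1
  apply SetLike.le_def.1
  rw [Submodule.span_le]
  rintro _ ⟨_, ⟨s, hs, rfl⟩, _, ⟨t, ht, rfl⟩, rfl⟩
  show chi ψ s * chi ψ t ∈ _
  rw [chi_mul]
  exact Submodule.subset_span ⟨s + t, fun e he => by rw [Pi.add_apply, hs e he, ht e he, add_zero], rfl⟩

theorem ds_mono {S T : Finset E} (h : S ⊆ T) : DS ψ S ≤ DS ψ T :=
  Submodule.span_mono (by rintro f ⟨s, hs, rfl⟩; exact ⟨s, fun e he => hs e (fun h' => he (h h')), rfl⟩)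

theorem ds_one (S : Finset E) : (1 : (E → ZMod r) → F) ∈ DS ψ S := by
  rw [← chi_zero (ψ := ψ) (E := E)]
  exact Submodule.subset_span ⟨0, fun _ _ => rfl, rfl⟩

theorem ds_pat (hψ : ψ.IsPrimitive) (hr : (r : F) ≠ 0) (S : Finset E) (τ : E → ZMod r) :
    (ind (fun y => ∀ e ∈ S, y e = τ e) : (E → ZMod r) → F) ∈ DS ψ S := by
  induction S using Finset.induction_on with
  | empty =>
    have : (ind (fun y => ∀ e ∈ (∅ : Finset E), y e = τ e) : (E → ZMod r) → F) = 1 := by
      funext y
      rw [ind_pos (by simp)]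
      rfl
    rw [this]
    exact ds_one _
  | insert e S he ih =>
    have h1 : (ind (fun y => ∀ i ∈ insert e S, y i = τ i) : (E → ZMod r) → F) =
        ((r : F)⁻¹ • ∑ j : ZMod r, (ψ (-(j * τ e))) • chi ψ (Pi.single e j)) *
          ind (fun y => ∀ i ∈ S, y i = τ i) := by
      funext y
      have h3 : ((r : F)⁻¹ • ∑ j : ZMod r, (ψ (-(j * τ e))) • chi ψ (Pi.single e j)) y =
          if y e = τ e then (1 : F) else 0 := by
        simp only [Pi.smul_apply, Finset.sum_apply, smul_eq_mul, chi_single]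
        have h3 : ∀ j : ZMod r, ψ (-(j * τ e)) * ψ (j * y e) = ψ (j * (y e - τ e)) := by
          intro j
          rw [← AddChar.map_add_eq_mul]
          congr 1
          ring
        simp only [h3]
        rw [← delta hψ hr]
      rw [Pi.mul_apply, h3]
      by_cases h4 : y e = τ e
      · rw [if_pos h4, one_mul]
        by_cases h5 : ∀ i ∈ S, y i = τ i
        · have h6 : ∀ i ∈ insert e S, y i = τ i := by
            intro i hi
            rcases mem_insert.1 hi with rfl | hi
            · exact h4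
            · exact h5 i hi
          exact (ind_pos (P := fun y : E → ZMod r => ∀ i ∈ insert e S, y i = τ i) h6).trans
            (ind_pos (P := fun y : E → ZMod r => ∀ i ∈ S, y i = τ i) h5).symm
        · have h6 : ¬ ∀ i ∈ insert e S, y i = τ i := fun h => h5 fun i hi => h i (mem_insert_of_mem hi)
          exact (ind_neg (P := fun y : E → ZMod r => ∀ i ∈ insert e S, y i = τ i) h6).trans
            (ind_neg (P := fun y : E → ZMod r => ∀ i ∈ S, y i = τ i) h5).symm
      · rw [if_neg h4, zero_mul, ind_neg]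
        intro h
        exact h4 (h e (mem_insert_self _ _))
    rw [h1]
    apply ds_mul
    · apply Submodule.smul_mem
      apply Submodule.sum_mem
      intro j _
      apply Submodule.smul_mem
      apply Submodule.subset_span
      refine ⟨_, ?_, rfl⟩
      intro i hi
      have : i ≠ e := fun h => hi (h ▸ mem_insert_self _ _)
      exact Pi.single_eq_of_ne this _
    · exact ds_mono (subset_insert _ _) ih

theorem char_sum (J : Finset E) (x : E → ZMod r) : ψ (∑ e ∈ J, x e) = ∏ e ∈ J, ψ (x e) := by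
  induction J using Finset.induction_on with
  | empty => simp
  | insert e J he ih => rw [sum_insert he, prod_insert he, AddChar.map_add_eq_mul, ih]

theorem wt_le {S : Finset E} {s : E → ZMod r} (h : ∀ e, e ∉ S → s e = 0) : wt s ≤ S.card := by
  unfold wt
  apply card_le_card
  intro e he
  rw [mem_filter] at he
  by_contra h'
  exact he.2 (h e h')

/-- the Fourier coefficients of a pattern -/
theorem cf_pat (hψ : ψ.IsPrimitive) (J : Finset E) (τ s : E → ZMod r) :
    cf ψ s (ind (fun y => ∀ e ∈ J, y e = τ e)) =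
      if ∀ e, e ∉ J → s e = 0 then ψ (-∑ e, s e * τ e) * (r : F) ^ (univ \ J).card else 0 := by
  classical
  unfold cf
  rw [LinearMap.sum_apply]
  have h1 : ∀ y : E → ZMod r, (chi ψ (-s) y • (LinearMap.proj y : ((E → ZMod r) → F) →ₗ[F] F))
      (ind (fun y => ∀ e ∈ J, y e = τ e)) =
      ∏ e, (if e ∈ J then (if y e = τ e then ψ (-(s e * τ e)) else 0) else ψ (y e * (- s e))) := by
    intro y
    rw [LinearMap.smul_apply, LinearMap.proj_apply, smul_eq_mul]
    by_cases h : ∀ e ∈ J, y e = τ e
    · rw [ind_pos h, mul_one]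
      unfold chi
      apply prod_congr rfl
      intro e _
      by_cases he : e ∈ J
      · rw [if_pos he, if_pos (h e he), h e he]
        congr 1
        simp
      · rw [if_neg he]
        congr 1
        simp [mul_comm]
    · rw [ind_neg h, mul_zero]
      push Not at h
      obtain ⟨e, he, h⟩ := h
      symm
      apply prod_eq_zero (mem_univ e)
      rw [if_pos he, if_neg h]
  rw [sum_congr rfl fun y _ => h1 y]
  have h2 := Finset.prod_univ_sum (fun _ : E => (univ : Finset (ZMod r)))
    (fun e b => (if e ∈ J then (if b = τ e then ψ (-(s e * τ e)) else 0) else ψ (b * (- s e)) : F))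
  rw [Fintype.piFinset_univ] at h2
  rw [← h2]
  have h3 : ∀ e : E, ∑ b : ZMod r, (if e ∈ J then (if b = τ e then ψ (-(s e * τ e)) else 0) else
      ψ (b * (- s e)) : F) = if e ∈ J then ψ (-(s e * τ e)) else if s e = 0 then (r : F) else 0 := by
    intro e
    by_cases he : e ∈ J
    · simp only [if_pos he]
      rw [Finset.sum_ite_eq' univ (τ e)]
      simp
    · simp only [if_neg he]
      rw [AddChar.sum_mulShift (- s e) hψ, ZMod.card]
      by_cases h : s e = 0
      · simp [h]
      · simp [h]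
  rw [prod_congr rfl fun e _ => h3 e]
  by_cases h : ∀ e, e ∉ J → s e = 0
  · rw [if_pos h]
    have h4 : ψ (-∑ e, s e * τ e) = ∏ e ∈ J, ψ (-(s e * τ e)) := by
      have : -∑ e, s e * τ e = ∑ e ∈ J, -(s e * τ e) := by
        rw [sum_neg_distrib]
        congr 1
        symm
        apply sum_subset (subset_univ _)
        intro e _ he
        rw [h e he, zero_mul]
      rw [this, char_sum]
    rw [h4]
    have h5 : (r : F) ^ (univ \ J).card = ∏ e ∈ univ \ J, (r : F) := by rw [prod_const]
    rw [h5, mul_comm, ← Finset.prod_sdiff (subset_univ J)]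
    congr 1
    · apply prod_congr rfl
      intro e he
      rw [mem_sdiff] at he
      rw [if_neg he.2, if_pos (h e he.2)]
    · apply prod_congr rfl
      intro e he
      rw [if_pos he]
  · rw [if_neg h]
    push Not at h
    obtain ⟨e, he, h⟩ := h
    apply prod_eq_zero (mem_univ e)
    rw [if_neg he, if_neg h]

end Sup

section Tse

variable {q : ℕ} {F : Type} [Field F] {r : ℕ} [NeZero r] {ψ : AddChar (ZMod r) F} {K c : ℕ}

theorem pat_bad (hψ : ψ.IsPrimitive) (hr : (r : F) ≠ 0) (J : Finset (Ed q)) (τ : Ed q → ZMod r)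
    (hJ : J.card ≤ K) (h : BadT c J τ) : (ind (Pat J τ) : (Ed q → ZMod r) → F) ∈ Zk ψ q c K := by
  obtain ⟨u, hu, hd, hne⟩ := h
  have h1 : ∀ f ∈ DS ψ J, f * (1 - ph ψ c u • chi ψ (du u)) ∈ Zk ψ q c K := by
    intro f hf
    unfold DS at hf
    induction hf using Submodule.span_induction with
    | mem f hf =>
      obtain ⟨s, hs, rfl⟩ := hf
      rw [mul_sub, mul_one, mul_smul_comm, chi_mul]
      apply Submodule.subset_span
      refine ⟨s, u, (wt_le hs).trans hJ, (wt_le ?_).trans hJ, hu, rfl⟩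
      intro e he
      rw [Pi.add_apply, hs e he, hd e he, add_zero]
    | zero => simp
    | add f g _ _ h1 h2 =>
      rw [add_mul]
      exact Submodule.add_mem _ h1 h2
    | smul a f _ h1 =>
      rw [smul_mul_assoc]
      exact Submodule.smul_mem _ _ h1
  set ζ : F := ψ (∑ e, du u e * τ e - ∑ a, u a * ch r c a) with hζ
  have hζ1 : ζ ≠ 1 := by
    intro h
    exact hne (sub_eq_zero.1 ((AddChar.IsPrimitive.zmod_char_eq_one_iff r hψ _).1 h))
  have h2 : (ind (Pat J τ) : (Ed q → ZMod r) → F) =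
      (1 - ζ)⁻¹ • (ind (Pat J τ) * (1 - ph ψ c u • chi ψ (du u))) := by
    funext y
    by_cases hy : Pat J τ y
    · simp only [Pi.smul_apply, Pi.mul_apply, Pi.sub_apply, Pi.one_apply, smul_eq_mul]
      rw [ind_pos hy, one_mul]
      have h3 : ph ψ c u * chi ψ (du u) y = ζ := by
        rw [chi_eq, hζ]
        unfold ph
        rw [← AddChar.map_add_eq_mul]
        congr 1
        have : ∑ e, du u e * y e = ∑ e, du u e * τ e := by
          apply sum_congr rfl
          intro e _
          by_cases he : e ∈ J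
          · rw [hy e he]
          · rw [hd e he, zero_mul, zero_mul]
        rw [this]
        ring
      rw [h3, inv_mul_cancel₀ (sub_ne_zero.2 (Ne.symm hζ1))]
    · simp only [Pi.smul_apply, Pi.mul_apply, smul_eq_mul]
      rw [ind_neg hy, zero_mul, mul_zero]
  rw [h2]
  exact Submodule.smul_mem _ _ (h1 _ (ds_pat hψ hr J τ))

open scoped Classical in
/-- the coefficient of `1` after the reduction -/
noncomputable def Lam (ψ : AddChar (ZMod r) F) (q c K : ℕ) : ((Ed q → ZMod r) → F) →ₗ[F] F :=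
  ∑ w ∈ (univ : Finset (Fin q → ZMod r)).filter (fun w => 2 * (sp w).card < q ∧ wt (du w) ≤ K),
    ph ψ c (-w) • cf ψ (du w)

theorem lam_pos (hψ : ψ.IsPrimitive) {w : Fin q → ZMod r} (hw : 2 * (sp w).card < q) (hw1 : wt (du w) ≤ K) :
    Lam ψ q c K (chi ψ (du w)) = ph ψ c (-w) * (r : F) ^ Fintype.card (Ed q) := by
  classical
  unfold Lam
  rw [LinearMap.sum_apply, Finset.sum_eq_single w]
  · rw [LinearMap.smul_apply, cf_chi hψ, if_pos rfl, smul_eq_mul]
  · intro u hu hne
    rw [mem_filter] at hu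
    rw [LinearMap.smul_apply, cf_chi hψ, if_neg, smul_zero]
    intro h
    exact hne (du_inj hu.2.1 hw h)
  · intro h
    exact absurd (mem_filter.2 ⟨mem_univ _, hw, hw1⟩) h

theorem lam_neg (hψ : ψ.IsPrimitive) {s : Ed q → ZMod r}
    (hs : ¬ ∃ w : Fin q → ZMod r, 2 * (sp w).card < q ∧ du w = s) : Lam ψ q c K (chi ψ s) = 0 := by
  classical
  unfold Lam
  rw [LinearMap.sum_apply]
  apply Finset.sum_eq_zero
  intro u hu
  rw [mem_filter] at hu
  rw [LinearMap.smul_apply, cf_chi hψ, if_neg, smul_zero]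
  intro h
  exact hs ⟨u, hu.2.1, h⟩

theorem lam_zk (hψ : ψ.IsPrimitive) (hK : 9 * K < q * q) {f : (Ed q → ZMod r) → F} (hf : f ∈ Zk ψ q c K) :
    Lam ψ q c K f = 0 := by
  have h1 : Zk ψ q c K ≤ LinearMap.ker (Lam ψ q c K) := by
    unfold Zk
    rw [Submodule.span_le]
    rintro _ ⟨s, u, h3, h4, h5, rfl⟩
    show _ ∈ LinearMap.ker _
    rw [LinearMap.mem_ker, map_sub, map_smul, smul_eq_mul]
    have hw0 : wt (0 : Ed q → ZMod r) ≤ K := by rw [wt_zero]; exact Nat.zero_le _
    by_cases h : ∃ w : Fin q → ZMod r, 2 * (sp w).card < q ∧ du w = s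
    · obtain ⟨w, hw, rfl⟩ := h
      obtain ⟨h6, h7⟩ := shift_two hK hw0 h3 h4 hw h5 (zero_add _).symm rfl
      rw [zero_add] at h7
      rw [lam_pos hψ hw h3, h7, lam_pos hψ h6 (by rw [← h7]; exact h4), ← mul_assoc, ← ph_add]
      have : u + -(w + u) = -w := by abel
      rw [this, sub_self]
    · have h' : ¬ ∃ w : Fin q → ZMod r, 2 * (sp w).card < q ∧ du w = s + du u := by
        rintro ⟨w, hw, h6⟩
        apply h
        have hu' : 2 * (sp (-u)).card < q := by rw [sp_neg]; exact h5
        obtain ⟨h7, h8⟩ := shift_two hK hw0 h4 h3 hw hu' (by rw [zero_add, h6]) (back rfl)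
        exact ⟨w + -u, h7, by rw [zero_add] at h8; exact h8.symm⟩
      rw [lam_neg hψ h, lam_neg hψ h', mul_zero, sub_zero]
  exact LinearMap.mem_ker.1 (h1 hf)

/-- the vectors of the vertices whose difference vanishes outside `J` -/
def UJ (hq : 0 < q) (hK : 9 * K < q * q) (J : Finset (Ed q)) (hJ : J.card ≤ K) : AddSubgroup (Fin q → ZMod r) where
  carrier := {u | 2 * (sp u).card < q ∧ ∀ e, e ∉ J → du u e = 0}
  add_mem' := by
    rintro u w ⟨h1, h2⟩ ⟨h3, h4⟩
    have h5 : ∀ e, e ∉ J → (du u + du w) e = 0 := by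
      intro e he
      rw [Pi.add_apply, h2 e he, h4 e he, add_zero]
    have hw0 : wt (0 : Ed q → ZMod r) ≤ K := by rw [wt_zero]; exact Nat.zero_le _
    obtain ⟨h6, h7⟩ := shift_two hK hw0 ((wt_le h2).trans hJ) ((wt_le h5).trans hJ) h1 h3 (zero_add _).symm rfl
    exact ⟨h6, fun e he => by rw [du_add]; exact h5 e he⟩
  zero_mem' := ⟨by rw [sp_zero]; simpa using hq, fun e _ => by rw [du_zero]; rfl⟩
  neg_mem' := by
    rintro u ⟨h1, h2⟩
    exact ⟨by rw [sp_neg]; exact h1, fun e he => by rw [du_neg, Pi.neg_apply, h2 e he, neg_zero]⟩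

/-- a pattern is in the ideal iff it contradicts the charges -/
theorem pat_iff {q : ℕ} {F : Type} [Field F] {r : ℕ} [NeZero r] {ψ : AddChar (ZMod r) F} (hψ : ψ.IsPrimitive)
    (hr : (r : F) ≠ 0) {K c : ℕ} (hq : 0 < q) (hK : 9 * K < q * q) (J : Finset (Ed q)) (τ : Ed q → ZMod r)
    (hJ : J.card ≤ K) :
    (ind (Pat J τ) : (Ed q → ZMod r) → F) ∈ Zk ψ q c K ↔ BadT c J τ := by
  classical
  refine ⟨fun hz => ?_, pat_bad hψ hr J τ hJ⟩
  by_contra hbad
  have hgood : ∀ u : Fin q → ZMod r, 2 * (sp u).card < q → (∀ e, e ∉ J → du u e = 0) →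
      ∑ e, du u e * τ e = ∑ a, u a * ch r c a := by
    intro u h1 h2
    by_contra h
    exact hbad ⟨u, h1, h2, h⟩
  have h1 := lam_zk hψ hK hz
  unfold Lam at h1
  rw [LinearMap.sum_apply] at h1
  have h2 : ∀ w ∈ (univ : Finset (Fin q → ZMod r)).filter (fun w => 2 * (sp w).card < q ∧ wt (du w) ≤ K),
      (ph ψ c (-w) • cf ψ (du w)) (ind (Pat J τ)) =
        if ∀ e, e ∉ J → du w e = 0 then (r : F) ^ (univ \ J).card else 0 := by
    intro w hw
    rw [mem_filter] at hw
    rw [LinearMap.smul_apply, smul_eq_mul]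
    have h3 := cf_pat hψ J τ (du w)
    have h4 : (ind (Pat J τ) : (Ed q → ZMod r) → F) = ind (fun y => ∀ e ∈ J, y e = τ e) := rfl
    rw [h4, h3]
    by_cases h : ∀ e, e ∉ J → du w e = 0
    · rw [if_pos h, if_pos h, ← mul_assoc]
      have h5 : ph ψ c (-w) * ψ (-∑ e, du w e * τ e) = 1 := by
        unfold ph
        rw [← AddChar.map_add_eq_mul, hgood w hw.2.1 h]
        have : -∑ a, (-w) a * ch r c a + -∑ a, w a * ch r c a = 0 := by
          simp [Finset.sum_neg_distrib]
        rw [this, AddChar.map_zero_eq_one]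
      rw [h5, one_mul]
    · rw [if_neg h, if_neg h, mul_zero]
  rw [sum_congr rfl h2, ← Finset.sum_filter, Finset.sum_const, nsmul_eq_mul] at h1
  rcases mul_eq_zero.1 h1 with h1 | h1
  · have h3 : (Nat.card (UJ (r := r) hq hK J hJ) : F) = 0 := by
      rw [← h1]
      congr 1
      rw [Nat.card_eq_fintype_card, Fintype.card_subtype]
      congr 1
      ext w
      rw [mem_filter, mem_filter, mem_filter]
      constructor
      · rintro ⟨_, h3, h4⟩
        exact ⟨⟨mem_univ _, h3, (wt_le h4).trans hJ⟩, h4⟩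
      · rintro ⟨⟨_, h3, _⟩, h4⟩
        exact ⟨mem_univ _, h3, h4⟩
    obtain ⟨k, hk⟩ := AddSubgroup.card_addSubgroup_dvd_card (UJ (r := r) hq hK J hJ)
    have h4 : ((Nat.card (Fin q → ZMod r) : ℕ) : F) = 0 := by
      rw [hk, Nat.cast_mul, h3, zero_mul]
    rw [Nat.card_eq_fintype_card, Fintype.card_fun, ZMod.card, Fintype.card_fin, Nat.cast_pow] at h4
    exact pow_ne_zero _ hr h4
  · exact pow_ne_zero _ hr h1

end Tse

end Pool.Agent.H3.MX
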