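import Pool.Agent.H3.MX.Mov
import Pool.Agent.H3.MX.Lin

/-!
# FG, MIX: lines without gates move from one modulus to another
-/

set_option autoImplicit false
set_option linter.unusedSectionVars false

namespace Pool.Agent.H3.MX

open Finset Pool.Agent.H93.RG
open Pool.Agent.H3.RG (Mr)
open Pool.Agent.H3.Frg hiding ind
open Pool.Agent.H67.FG (ind Alg Fo tr orAll orF self_mem_subs)
open Pool.Agent.H67.RG (Ev df)

/-- the truth defect of a formula without gates, as a function of the values of the process -/
theorem df_free {k : Type} [Field k] {V Y : Type} (rr : Y → Fm (V ⊕ Bool) → Option Bool) (g : Y → Fo V → Bool)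
    (hg : ∀ y A, g y A = (rr y (tr (g y) A)).getD false) (A : Fo V) (C : Fm (V ⊕ Bool)) (hC : ∀ y, tr (g y) A = C) :
    (df g A : Y → k) = ind (fun y => rr y C = some false) + ind (fun y => rr y C = none) := by
  funext y
  have h1 : g y A = (rr y C).getD false := by rw [hg y A, hC y]
  show (1 : Y → k) y - ind (fun y => g y A = true) y = _
  rw [Pi.add_apply, Pi.one_apply]
  cases h : rr y C with
  | none =>
    have e1 : ¬ g y A = true := by rw [h1, h]; simp
    rw [ind_0 (P := fun y => g y A = true) e1, ind_0 (P := fun y => rr y C = some false) (by rw [h]; simp),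
      ind_1 (P := fun y => rr y C = none) h]
    ring
  | some b =>
    cases b with
    | true =>
      have e1 : g y A = true := by rw [h1, h]; rfl
      rw [ind_1 (P := fun y => g y A = true) e1, ind_0 (P := fun y => rr y C = some false) (by rw [h]; simp),
        ind_0 (P := fun y => rr y C = none) (by rw [h]; simp)]
      ring
    | false =>
      have e1 : ¬ g y A = true := by rw [h1, h]; simp
      rw [ind_0 (P := fun y => g y A = true) e1, ind_1 (P := fun y => rr y C = some false) h,
        ind_0 (P := fun y => rr y C = none) (by rw [h]; simp)]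
      ring

/-- the transfer -/
theorem df_move {p p' r q K c m m' k w D1 N : ℕ} [Fact p.Prime] [Fact p'.Prime] [NeZero r] [NeZero q] (hr : 1 ≤ r)
    {𝓦 : MW r (ZMod p) (Ed q → ZMod r) (Pt r q c)} {𝓦' : MW r (ZMod p') (Ed q → ZMod r) (Pt r q c)}
    (h : WW p K c 𝓦) (h' : WW p' K c 𝓦')
    (val : Fm (Finset (Fin N) ⊕ Bool) → Finset (Finset (Pt r q c)) → Option Bool)
    (hK : 3 * ((w + 1) * (r * w) * (q - 1)) ≤ K) {Hyp L : Set (Fo (Finset (Fin N)))}
    {g g' : (Ed q → ZMod r) → Fo (Finset (Fin N)) → Bool}
    (E : Ev m k 𝓦.toAlg D1 (fun y C => run r w (val C) (Mr y) (w + 1) ∅) g Hyp L)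
    (E' : Ev m' k 𝓦'.toAlg D1 (fun y C => run r w (val C) (Mr y) (w + 1) ∅) g' Hyp L)
    {A : Fo (Finset (Fin N))} (hA : A ∈ L) (hfree : A.gates = ∅) (hz : df g A ∈ 𝓦.Z) : df g' A ∈ 𝓦'.Z := by
  set C := tr (fun _ => false) A with hC
  have c1 : ∀ y, tr (g y) A = C := fun y => tr_free _ _ A hfree
  have c2 : ∀ y, tr (g' y) A = C := fun y => tr_free _ _ A hfree
  rw [df_free (fun y C => run r w (val C) (Mr y) (w + 1) ∅) g E.val A C c1] at hz
  rw [df_free (fun y C => run r w (val C) (Mr y) (w + 1) ∅) g' E'.val A C c2]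
  have n1 := E.sz A hA A (self_mem_subs A)
  have n2 := E'.sz A hA A (self_mem_subs A)
  simp only [c1] at n1
  simp only [c2] at n2
  have f1 : ind (fun y => run r w (val C) (Mr y) (w + 1) ∅ = some false) ∈ 𝓦.Z := by
    have := Submodule.sub_mem _ hz n1
    rwa [add_sub_cancel_right] at this
  exact Submodule.add_mem _ (run_move hr h h' w (w + 1) (val C) hK (some false) f1) n2

end Pool.Agent.H3.MX
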