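import Pool.Agent.H3.MX.Pat

/-!
# FG, MIX (M): the worlds for different primes
-/

set_option autoImplicit false
set_option linter.unusedSectionVars false

namespace Pool.Agent.H3.MX

open Finset Pool.Agent.H93.RG
open Pool.Agent.H3.RG (Mr EA tch_congr cov_tch card_EA Vio_congr card_atv isM_Mr uncov gv)
open Pool.Agent.H67.FG (ind Alg)

/-- the world over a given algebra -/
theorem world_of {k : Type} [Field k] {r q c : ℕ} [NeZero q] (hr : 2 ≤ r) (hq1 : q % r = 1)
    (𝓐 : Alg k (Ed q → ZMod r))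
    (hdeg0 : ∀ (S : Finset (Ed q)) (f : (Ed q → ZMod r) → k), (∀ y y', (∀ e ∈ S, y e = y' e) → f y = f y') →
      f ∈ 𝓐.Deg S.card) (hviol : ∀ a : Fin q, ind (fun y => Vio c a y) ∈ 𝓐.Z) :
    ∃ 𝓦 : MW r k (Ed q → ZMod r) (Pt r q c), 𝓦.toAlg = 𝓐 ∧ 𝓦.c = q - 1 ∧ 𝓦.M = Mr := by
  classical
  have hdeg : ∀ (E : Finset (Ed q)) (P : (Ed q → ZMod r) → Prop), (∀ y y', (∀ e ∈ E, y e = y' e) → (P y ↔ P y')) →
      ind P ∈ 𝓐.Deg E.card := by
    intro E P h
    refine hdeg0 E _ fun y y' hy => ?_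
    unfold Pool.Agent.H67.FG.ind
    by_cases h1 : P y
    · rw [if_pos h1, if_pos ((h y y' hy).1 h1)]
    · rw [if_neg h1, if_neg (fun h2 => h1 ((h y y' hy).2 h2))]
  have hdv : ∀ v : Fin q, ind (fun y : Ed q → ZMod r => Vio c v y) ∈ 𝓐.Deg (q - 1) := by
    intro v
    have h1 := hdeg (atv v) (fun y => Vio c v y) (fun y y' h => Vio_congr h)
    rw [card_atv] at h1
    exact h1
  have hdA : ∀ (A : Finset (Pt r q c)) (P : (Ed q → ZMod r) → Prop), (∀ y y', (∀ e ∈ EA A, y e = y' e) → (P y ↔ P y')) →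
      ind P ∈ 𝓐.Deg (A.card * (q - 1)) := fun A P h => 𝓐.mono (card_EA A) (hdeg _ _ h)
  refine ⟨{ toAlg := 𝓐, M := Mr, c := q - 1, isM := isM_Mr hr, loc := ?_, stk := ?_ }, rfl, rfl, rfl⟩
  · intro A δ
    exact hdA A _ fun y y' h => by rw [tch_congr h]
  · intro A
    induction A using Finset.induction_on with
    | empty =>
      intro _
      have h1 : ind (k := k) (fun y : Ed q → ZMod r => ¬ (∅ : Finset (Pt r q c)) ⊆ cov (Mr y)) = 0 := by
        funext y
        unfold Pool.Agent.H67.FG.ind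
        rw [if_neg (fun h => h (empty_subset _))]
        rfl
      rw [h1]
      exact Submodule.zero_mem _
    | insert a A ha ih =>
      intro hK
      rw [card_insert_of_notMem ha] at hK
      have hK1 : 2 * (A.card * (q - 1)) + (q - 1) ≤ 𝓐.K := by
        have h1 : A.card * (q - 1) ≤ (A.card + 1) * (q - 1) := Nat.mul_le_mul_right _ (Nat.le_succ _)
        omega
      have h0 := ih hK1
      have hf : ind (k := k) (fun y : Ed q → ZMod r => A ⊆ cov (Mr y) ∧ a ∉ cov (Mr y)) ∈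
          𝓐.Deg ((insert a A).card * (q - 1)) := by
        refine hdA (insert a A) _ fun y y' h => ?_
        have h1 : A ⊆ cov (Mr y) ↔ A ⊆ cov (Mr y') := by
          rw [cov_tch, cov_tch (M := Mr y'), tch_congr fun e he => h e (biUnion_subset_biUnion_of_subset_left _
            (subset_insert _ _) he)]
        have h2 : ({a} : Finset (Pt r q c)) ⊆ cov (Mr y) ↔ ({a} : Finset (Pt r q c)) ⊆ cov (Mr y') := by
          rw [cov_tch, cov_tch (M := Mr y'), tch_congr fun e he => h e (biUnion_subset_biUnion_of_subset_left _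
            (singleton_subset_iff.2 (mem_insert_self _ _)) he)]
        rw [singleton_subset_iff, singleton_subset_iff] at h2
        rw [h1, h2]
      rw [card_insert_of_notMem ha] at hf
      have h3 : ind (k := k) (fun y : Ed q → ZMod r => ¬ insert a A ⊆ cov (Mr y)) =
          ind (fun y => ¬ A ⊆ cov (Mr y)) + ind (fun y => A ⊆ cov (Mr y) ∧ a ∉ cov (Mr y)) *
            ind (fun y => Vio c (gv a) y) := by
        funext y
        rw [Pi.add_apply, Pi.mul_apply]
        unfold Pool.Agent.H67.FG.ind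
        by_cases h1 : A ⊆ cov (Mr y)
        · by_cases h2 : a ∈ cov (Mr y)
          · rw [if_neg (fun h => h (insert_subset h2 h1)), if_neg (fun h => h h1), if_neg (fun h => h.2 h2)]
            ring
          · rw [if_pos (fun h => h2 (h (mem_insert_self _ _))), if_neg (fun h => h h1), if_pos ⟨h1, h2⟩,
              if_pos (uncov hr hq1 h2)]
            ring
        · rw [if_pos (fun h => h1 ((subset_insert _ _).trans h)), if_pos h1, if_neg (fun h => h1 h.1)]
          ring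
      rw [h3]
      refine Submodule.add_mem _ h0 (𝓐.zmul ?_ hf (hdv _) (hviol _))
      have h4 : 2 * ((A.card + 1) * (q - 1)) + (q - 1) ≤ 𝓐.K := hK
      omega

theorem world_mx (p : ℕ) [Fact p.Prime] {r : ℕ} [NeZero r] (hr : 2 ≤ r) (hpr : ¬ p ∣ r) {q : ℕ} [NeZero q]
    (K c : ℕ) (hq : 3 < q) (hq1 : q % r = 1) (hK : 9 * K < q ^ 2) (hqK : q - 1 ≤ K) :
    ∃ 𝓦 : MW r (ZMod p) (Ed q → ZMod r) (Pt r q c), WW p K c 𝓦 := by
  have hr0 : ((⟨r, by omega⟩ : ℕ+) : ZMod p) ≠ 0 := by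
    show ((r : ℕ) : ZMod p) ≠ 0
    rw [Ne, ZMod.natCast_eq_zero_iff]
    exact hpr
  let P := AddChar.primitiveZModChar ⟨r, by omega⟩ (ZMod p) hr0
  have hr1 : (r : CyclotomicField P.n (ZMod p)) ≠ 0 := by
    intro h
    have h1 : (algebraMap (ZMod p) (CyclotomicField P.n (ZMod p))) ((r : ℕ) : ZMod p) = 0 := by
      rw [map_natCast]
      exact h
    exact hr0 ((map_eq_zero _).1 h1)
  let ψ : AddChar (ZMod r) (CyclotomicField P.n (ZMod p)) := P.char
  have hψ : ψ.IsPrimitive := P.prim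
  let 𝓐 : Alg (ZMod p) (Ed q → ZMod r) := Alg.res (k := ZMod p) (algF ψ hψ hr1 q K c (by omega) hK)
  have hj : ∀ (S : Finset (Ed q)) (f : (Ed q → ZMod r) → ZMod p), (∀ y y', (∀ e ∈ S, y e = y' e) → f y = f y') →
      f ∈ 𝓐.Deg S.card := by
    intro S f hf
    show ext _ _ _ f ∈ Dg ψ (Ed q) S.card
    apply dg_junta hψ hr1
    intro y y' h
    show algebraMap _ _ (f y) = algebraMap _ _ (f y')
    rw [hf y y' h]
  have hv : ∀ a : Fin q, ind (fun y => Vio c a y) ∈ 𝓐.Z := by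
    intro a
    show ext _ _ _ (ind _) ∈ Zk ψ q c K
    rw [ext_ind]
    exact zk_mono hqK (vio_mem hψ hr1 (by omega) c a)
  have hp : ∀ (J : Finset (Ed q)) (τ : Ed q → ZMod r), J.card ≤ K → (ind (Pat J τ) ∈ 𝓐.Z ↔ BadT c J τ) := by
    intro J τ hJ
    rw [← pat_iff hψ hr1 (by omega) (by rw [← sq]; exact hK) J τ hJ]
    show ext _ _ _ (ind _) ∈ Zk ψ q c K ↔ _
    rw [ext_ind]
  obtain ⟨𝓦, h1, h2, h3⟩ := world_of hr hq1 𝓐 hj hv
  refine ⟨𝓦, h2, ?_, h3, ?_, ?_⟩
  · show 𝓦.toAlg.K = K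
    rw [h1]
    rfl
  · intro S f hf
    show f ∈ 𝓦.toAlg.Deg S.card
    rw [h1]
    exact hj S f hf
  · intro J τ hJ
    show ind (Pat J τ) ∈ 𝓦.toAlg.Z ↔ _
    rw [h1]
    exact hp J τ hJ

end Pool.Agent.H3.MX
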